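import Mathlib
import Pool.Agent.U180.NG.Stm

/-! Project NG (helper180), package VDC (helper750): van der Corput's second derivative test. -/

set_option autoImplicit false
set_option linter.style.haveILetI false

namespace Pool.Agent.U750.NG

open Pool.Agent.U180.NG
open Pool.Agent.H469R2.NK (e e_add norm_e e_nat e_zero kusmin_landau_anti)

lemma e_int (j : ℤ) : e j = 1 := by
  unfold e
  rw [Complex.exp_eq_one_iff]
  exact ⟨j, by push_cast; ring⟩

lemma nsum_le (x : ℕ → ℝ) (L : ℕ) : ‖∑ n ∈ Finset.range L, e (x n)‖ ≤ L := by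
  refine (_root_.norm_sum_le _ _).trans ?_
  simp [norm_e]

/-- telescoping the gaps -/
lemma tele (d : ℕ → ℝ) (L : ℕ) (lam : ℝ) (h : ∀ n, n + 1 < L → lam ≤ d n - d (n + 1)) (i : ℕ) :
    ∀ k, i + k < L → k * lam ≤ d i - d (i + k) := by
  intro k
  induction k with
  | zero => intro _; simp
  | succ k ih =>
    intro hk
    have h1 := ih (by omega)
    have h2 := h (i + k) (by omega)
    have h3 : i + (k + 1) = i + k + 1 := by omega
    rw [h3]
    push_cast
    linarith

/-- the first point where `P` holds, or `L` -/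
lemma cut (P : ℕ → Prop) (L : ℕ) : ∃ c ≤ L, (∀ m < c, ¬ P m) ∧ (c < L → P c) := by
  classical
  have hex : ∃ m, m = L ∨ P m := ⟨L, Or.inl rfl⟩
  refine ⟨Nat.find hex, Nat.find_min' hex (Or.inl rfl), fun m hm hP => ?_, fun hc => ?_⟩
  · exact Nat.find_min hex hm (Or.inr hP)
  · rcases Nat.find_spec hex with h | h
    · omega
    · exact h

/-- the differences are in `[0, 1)` -/
lemma partA0 (y : ℕ → ℝ) (L : ℕ) (θ : ℝ) (hθ : 0 < θ)
    (hg : ∀ n, n + 1 < L → θ ^ 2 ≤ (y (n + 1) - y n) - (y (n + 2) - y (n + 1)))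
    (h0 : ∀ n < L, 0 ≤ y (n + 1) - y n) (h1 : ∀ n < L, y (n + 1) - y n < 1) :
    ‖∑ n ∈ Finset.range L, e (y n)‖ ≤ 4 / θ + 2 := by
  obtain ⟨p, hpL, hp1, hp2⟩ := cut (fun m => y (m + 1) - y m ≤ 1 - θ) L
  obtain ⟨q', hqL', hq1', hq2'⟩ := cut (fun m => y (p + m + 1) - y (p + m) < θ) (L - p)
  have htel := tele (fun n => y (n + 1) - y n) L (θ ^ 2) hg
  have hanti : ∀ i k, i + k < L → y (i + k + 1) - y (i + k) ≤ y (i + 1) - y i := by
    intro i k hk
    have := htel i k hk
    have h2 : 0 ≤ (k : ℝ) * θ ^ 2 := by positivity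
    linarith
  -- the initial piece
  have hp : (p : ℝ) ≤ 1 / θ + 1 := by
    rcases Nat.eq_zero_or_pos p with h | h
    · rw [h]; push_cast; positivity
    · have h2 := htel 0 (p - 1) (by omega)
      have h3 := hp1 (p - 1) (by omega)
      have h4 := h1 0 (by omega)
      simp only [zero_add, not_le] at h2 h3 h4
      have h5 : ((p - 1 : ℕ) : ℝ) * θ ^ 2 ≤ θ := by linarith
      have h6 : ((p - 1 : ℕ) : ℝ) = (p : ℝ) - 1 := by
        push_cast [Nat.cast_sub h]; ring
      rw [h6] at h5
      have h7 : ((p : ℝ) - 1) * θ ≤ 1 := by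
        by_contra hcon
        push Not at hcon
        nlinarith
      have h8 : (p : ℝ) - 1 ≤ 1 / θ := by rwa [le_div_iff₀ hθ]
      linarith
  -- the final piece
  have hq : ((L - p - q' : ℕ) : ℝ) ≤ 1 / θ + 1 := by
    rcases Nat.eq_zero_or_pos (L - p - q') with h | h
    · rw [h]; push_cast; positivity
    · have h2 := htel (p + q') (L - p - q' - 1) (by omega)
      have h3 := hq2' (by omega)
      have h4 := h0 (L - 1) (by omega)
      have h9 : p + q' + (L - p - q' - 1) = L - 1 := by omega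
      simp only [h9] at h2
      have h5 : ((L - p - q' - 1 : ℕ) : ℝ) * θ ^ 2 ≤ θ := by linarith
      have h6 : ((L - p - q' - 1 : ℕ) : ℝ) = ((L - p - q' : ℕ) : ℝ) - 1 := by
        rw [Nat.cast_sub (by omega)]; push_cast; ring
      rw [h6] at h5
      have h7 : (((L - p - q' : ℕ) : ℝ) - 1) * θ ≤ 1 := by
        by_contra hcon
        push Not at hcon
        nlinarith
      have h8 : ((L - p - q' : ℕ) : ℝ) - 1 ≤ 1 / θ := by rwa [le_div_iff₀ hθ]
      linarith
  -- the middle piece
  have hm : ‖∑ n ∈ Finset.range q', e (y (p + n))‖ ≤ 2 / θ := by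
    refine kusmin_landau_anti (fun n => y (p + n)) q' hθ ?_ ?_ ?_
    · intro n hn
      have := hq1' n hn
      simp only [not_lt] at this
      exact this
    · intro n hn
      have h2 := hp2 (by omega)
      have h3 := hanti p n (by omega)
      show y (p + n + 1) - y (p + n) ≤ 1 - θ
      linarith
    · intro n hn
      have h2 := hg (p + n) (by omega)
      have h3 : 0 ≤ θ ^ 2 := by positivity
      show y (p + n + 2) - y (p + n + 1) ≤ y (p + n + 1) - y (p + n)
      linarith
  have hL : L = p + (q' + (L - p - q')) := by omega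
  rw [hL, Finset.sum_range_add, Finset.sum_range_add]
  have b1 := nsum_le y p
  have b2 := nsum_le (fun n => y (p + (q' + n))) (L - p - q')
  refine (norm_add_le _ _).trans ?_
  refine (add_le_add_right (norm_add_le _ _) _).trans ?_
  have : 4 / θ = 1 / θ + 2 / θ + 1 / θ := by ring
  rw [this]
  linarith

/-- the differences are in `[j, j + 1)` -/
lemma partA (x : ℕ → ℝ) (L : ℕ) (θ : ℝ) (j : ℤ) (hθ : 0 < θ)
    (hg : ∀ n, n + 1 < L → θ ^ 2 ≤ (x (n + 1) - x n) - (x (n + 2) - x (n + 1)))
    (h0 : ∀ n < L, (j : ℝ) ≤ x (n + 1) - x n) (h1 : ∀ n < L, x (n + 1) - x n < j + 1) :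
    ‖∑ n ∈ Finset.range L, e (x n)‖ ≤ 4 / θ + 2 := by
  have h := partA0 (fun n => x n - j * n) L θ hθ (by
      intro n hn
      have := hg n hn
      push_cast
      linarith) (by
      intro n hn
      have := h0 n hn
      push_cast
      linarith) (by
      intro n hn
      have := h1 n hn
      push_cast
      linarith)
  have h2 : ∀ n : ℕ, e (x n - j * n) = e (x n) := by
    intro n
    have h3 : x n = (x n - j * n) + ((j * n : ℤ) : ℝ) := by push_cast; ring
    conv_rhs => rw [h3, e_add, e_int, mul_one]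
  simpa only [h2] using h

/-- the differences are in an interval of integral length -/
lemma partB (θ : ℝ) (u : ℤ) (hθ : 0 < θ) (K : ℕ) : ∀ (x : ℕ → ℝ) (L : ℕ),
    (∀ n, n + 1 < L → θ ^ 2 ≤ (x (n + 1) - x n) - (x (n + 2) - x (n + 1))) →
    (∀ n < L, (u : ℝ) ≤ x (n + 1) - x n) → (∀ n < L, x (n + 1) - x n < u + K) →
    ‖∑ n ∈ Finset.range L, e (x n)‖ ≤ K * (4 / θ + 2) := by
  induction K with
  | zero =>
    intro x L _ h0 h1
    rcases Nat.eq_zero_or_pos L with h | h
    · rw [h]; simp
    · exfalso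
      have a := h0 0 h
      have b := h1 0 h
      push_cast at b
      linarith
  | succ K ih =>
    intro x L hg h0 h1
    obtain ⟨c, hcL, hc1, hc2⟩ := cut (fun m => x (m + 1) - x m < u + K) L
    have hA := partA x c θ (u + K) hθ (fun n hn => hg n (by omega)) (by
        intro n hn
        have := hc1 n hn
        push_cast
        linarith) (by
        intro n hn
        have := h1 n (by omega)
        push_cast at this ⊢
        linarith)
    have hB := ih (fun n => x (c + n)) (L - c) (fun n hn => hg (c + n) (by omega))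
      (fun n hn => h0 (c + n) (by omega)) (by
        intro n hn
        have h2 := hc2 (by omega)
        have h3 := tele (fun n => x (n + 1) - x n) L (θ ^ 2) hg c n (by omega)
        have h4 : 0 ≤ (n : ℝ) * θ ^ 2 := by positivity
        show x (c + n + 1) - x (c + n) < u + K
        linarith)
    have hL : L = c + (L - c) := by omega
    rw [hL, Finset.sum_range_add]
    refine (norm_add_le _ _).trans ?_
    push_cast
    linarith

theorem t_VDC : S_VDC := by
  intro x N lam D u hlam hD hg hd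
  set θ := Real.sqrt lam with hθdef
  have hθ : 0 < θ := Real.sqrt_pos.2 hlam
  have hsq : θ ^ 2 = lam := Real.sq_sqrt hlam.le
  have hinv : 0 < 1 / θ := by positivity
  rcases Nat.lt_or_ge N 2 with hN | hN
  · refine (nsum_le x N).trans ?_
    have h1 : (N : ℝ) ≤ 1 := by exact_mod_cast (by omega : N ≤ 1)
    nlinarith [mul_nonneg hD hinv.le]
  have hg' : ∀ n, n + 1 < N - 1 → θ ^ 2 ≤ (x (n + 1) - x n) - (x (n + 2) - x (n + 1)) := by
    intro n hn
    rw [hsq]
    exact hg n (by omega)
  rcases lt_or_ge (1 / 2 : ℝ) θ with hb | hb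
  · refine (nsum_le x N).trans ?_
    have h1 := tele (fun n => x (n + 1) - x n) (N - 1) (θ ^ 2) hg' 0 (N - 2) (by omega)
    have h2 := hd 0 (by omega)
    have h3 := hd (N - 2) (by omega)
    simp only [zero_add] at h1 h2
    have h4 : ((N - 2 : ℕ) : ℝ) = (N : ℝ) - 2 := by
      rw [Nat.cast_sub hN]; norm_num
    rw [h4] at h1
    have h5 : 1 / 4 ≤ θ ^ 2 := by nlinarith
    have h6 : (0 : ℝ) ≤ (N : ℝ) - 2 := by
      have : (2 : ℝ) ≤ N := by exact_mod_cast hN
      linarith
    have h7 : ((N : ℝ) - 2) * (1 / 4) ≤ D := by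
      have := mul_le_mul_of_nonneg_left h5 h6
      linarith [h2.1, h2.2, h3.1, h3.2]
    nlinarith [mul_nonneg hD hinv.le]
  · have hK0 : (0 : ℤ) ≤ ⌊u + D⌋ - ⌊u⌋ + 1 := by
      have := Int.floor_mono (show u ≤ u + D by linarith)
      omega
    have hK : (((⌊u + D⌋ - ⌊u⌋ + 1).toNat : ℕ) : ℝ) = (⌊u + D⌋ : ℝ) - ⌊u⌋ + 1 := by
      have : (((⌊u + D⌋ - ⌊u⌋ + 1).toNat : ℤ) : ℝ) = ((⌊u + D⌋ - ⌊u⌋ + 1 : ℤ) : ℝ) := by
        rw [Int.toNat_of_nonneg hK0]
      push_cast at this
      exact_mod_cast this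
    have hB := partB θ ⌊u⌋ hθ (⌊u + D⌋ - ⌊u⌋ + 1).toNat x (N - 1) hg' (by
        intro n hn
        exact (Int.floor_le u).trans (hd n (by omega)).1) (by
        intro n hn
        rw [hK]
        have := Int.lt_floor_add_one (u + D)
        linarith [(hd n (by omega)).2])
    have hK2 : (((⌊u + D⌋ - ⌊u⌋ + 1).toNat : ℕ) : ℝ) ≤ D + 2 := by
      rw [hK]
      have h1 := Int.floor_le (u + D)
      have h2 := Int.lt_floor_add_one u
      linarith
    have hL : N = (N - 1) + 1 := by omega
    rw [hL, Finset.sum_range_succ]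
    refine (norm_add_le _ _).trans ?_
    rw [norm_e]
    have h8 : (((⌊u + D⌋ - ⌊u⌋ + 1).toNat : ℕ) : ℝ) * (4 / θ + 2) ≤ (D + 2) * (4 / θ + 2) :=
      mul_le_mul_of_nonneg_right hK2 (by positivity)
    have h9 : 4 / θ = 4 * (1 / θ) := by ring
    rw [h9] at h8 hB
    nlinarith [mul_nonneg hD hinv.le]

end Pool.Agent.U750.NG
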